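import Pool.Agent.H26.GF.All

/-!
# The sign conjecture for crystalline cohomology and graph hypersurfaces

The *book* with `n` pages is the graph with `2 n + 2` vertices and `3 n + 1` edges which consists of `n`
cycles of length four (the pages) with one common edge (the spine). Let `G` be a finite simple graph,
`β` an embedding of the book with `n` pages into `G` (`IsBook G β`), and `Ĝ` the cone over `G`: the graph
with one more vertex, which is joined to all vertices of `G`. Let `t_1, …, t_n` be elements of the field
`k`. The graph hypersurface `X_{G, β, t} = bookS t G β` over `k` is given by the equation `det L = 0`,
where `L` is the reduced Laplacian of `Ĝ` with weights of the edges of `Ĝ`: all edges of the book have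
the weight `1`, except for one edge of every page, which has the weight `t_k` (`1 ≤ k ≤ n`); the weights
of all other edges of `Ĝ` are variables. So (theorem of Kirchhoff) the equation is the sum of the
products of the weights over the spanning trees of `Ĝ`.

The geometric theorem behind the result is `Pool.Agent.H26.GF.universal_all`: a property of the schemes
of finite type over a field which is closed under closed-open decompositions (two out of three) and
affine bundles (in both directions) and true for the point and for all `X_{G, β, t}` is true for all
schemes of finite type over the field.
-/

set_option autoImplicit false

open CategoryTheory Limits AlgebraicGeometry Pool.Agent.Y116.UV Pool.Agent.Q282.UM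
  Pool.Agent.Q282.UK Pool.Agent.H26.GF

namespace Pool.Agent.Results.MP_fd35e1_ag.GraphHypersurfaces

universe v u

/-- The crystalline cohomology on the category `C` of Chow motives over a perfect field of positive
characteristic: `H M` is the total cohomology of the motive `M`, and `even M` is the projection of
`H M` onto its even part. -/
structure Crystalline (C : Type u) [Category.{v} C] (K : Type) [Field K] where
  H : C ⥤ ModuleCat.{0} K
  even : H ⟶ H

/-- The conjecture `C⁺(M)`: the projection of the cohomology of `M` onto its even part is given by an
endomorphism of `M` (a cycle with rational coefficients). -/
def SignC {C : Type u} [Category.{v} C] {K : Type} [Field K] (R : Crystalline C K) (M : C) : Prop :=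
  ∃ f : M ⟶ M, R.H.map f = R.even.app M

/-- **The sign conjecture and graph hypersurfaces.** Let `C` be the category of Chow motives over the
perfect field `k` of characteristic `p > 0` with rational coefficients, with the crystalline
cohomology, and let `W(X)` be the weight complex of the scheme `X` of finite type over `k`.
The conjecture `C⁺` is true for all smooth projective `X` over `k` (and for the twists of their motives)
if and only if, for the point and for all graph hypersurfaces `Y = X_{G, β, t}` over `k`, the twists of
`W(Y)` are direct summands, in the homotopy category, of complexes all of whose terms satisfy the
conjecture `C⁺`. -/
theorem result {C : Type u} [Category.{v} C] [Preadditive C] [HasZeroObject C]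
    [HasBinaryBiproducts C] [HasFiniteBiproducts C] {K : Type} [Field K] (R : Crystalline C K)
    (hR : R.H.Additive) (k : Type) [Field k] [PerfectField k] (D : Weights k C)
    (hD : IsWeights D) : ForAllVarieties D (SignC R) ↔
      AllTwists D (TermsIn (SignC R)) (aff k k) ∧
      ∀ (n : ℕ) (t : Fin n → k) (N : ℕ) (G : SimpleGraph (Fin N))
        (β : Option (Fin n) ⊕ Option (Fin n) → Fin N), IsBook G β →
        AllTwists D (TermsIn (SignC R)) (bookS t G β) :=
  books_all hD (ext_terms (thick_map R.H hR R.even))

end Pool.Agent.Results.MP_fd35e1_ag.GraphHypersurfaces
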